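import Pool.Agent.Helper65.CS.Goals

/-!
# Mixture of two uniform assignments
-/

namespace Pool.Agent.Helper56.CS

open Pool.Agent.Helper65.CS Pool.Agent.Helper78.DT
open scoped Classical

lemma mx_rs {V : Type} [DecidableEq V] (S : Finset V) (z y : V → Bool) (v : V) :
    mx (rs S z) y v = if v ∈ S then y v else z v := by
  unfold mx rs
  split_ifs <;> rfl

lemma mx_inv {V : Type} [DecidableEq V] (S : Finset V) (z y : V → Bool) :
    mx (rs S (mx (rs S z) y)) (mx (rs S y) z) = z := by
  funext v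
  rw [mx_rs, mx_rs, mx_rs]
  split_ifs <;> rfl

/-- The exchange of the values on `S`. -/
def ex2 {V : Type} [DecidableEq V] (S : Finset V) :
    ((V → Bool) × (V → Bool)) ≃ ((V → Bool) × (V → Bool)) where
  toFun p := (mx (rs S p.1) p.2, mx (rs S p.2) p.1)
  invFun p := (mx (rs S p.1) p.2, mx (rs S p.2) p.1)
  left_inv p := Prod.ext (mx_inv S p.1 p.2) (mx_inv S p.2 p.1)
  right_inv p := Prod.ext (mx_inv S p.1 p.2) (mx_inv S p.2 p.1)

lemma av_ext {V : Type} [Fintype V] [DecidableEq V] (S : Finset V) (F : (V → Bool) → ℝ) :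
    (av fun p : (V → Bool) × (V → Bool) => F (ex2 S p).1) = av F := by
  rw [av_equiv (ex2 S) (fun p : (V → Bool) × (V → Bool) => F p.1), av_prod]
  exact av_congr fun a => av_const (F a)

theorem mix : Pool.Agent.Helper65.CS.MixStmt := by
  intro V _ _ S F
  rw [← av_ext S F, av_prod]
  rfl

end Pool.Agent.Helper56.CS
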